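import Mathlib

/-!
# The lower bound for the absolute square size is sharp for four real conjugates

Full (affirmative) answer of Q1 of MP_bf7c2b_nt.

The algebraic integers used are the roots of
`P_k(x) = x ^ (4k) + 2 (x ^ 2 - 1) x ^ (2k) + (2 x ^ 2 - 1) ^ 2`, `k` a power of two.
-/

open Polynomial Filter Topology

namespace Pool.Agent.Results.MP_bf7c2b_nt.FourReal

/-- The conjugates of `α` over `ℚ`: the complex roots of its minimal polynomial. -/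
noncomputable def conjugates (α : ℂ) : Finset ℂ := ((minpoly ℚ α).aroots ℂ).toFinset

/-- The number of real conjugates. -/
noncomputable def numReal (α : ℂ) : ℕ := ((conjugates α).filter (fun z => z.im = 0)).card

/-- The absolute square size `‖α‖ ^ 2`: each real conjugate contributes its square, each pair of
non-real conjugates its common squared modulus once. -/
noncomputable def sqSize (α : ℂ) : ℝ := ∑ z ∈ (conjugates α).filter (fun z => 0 ≤ z.im), ‖z‖ ^ 2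

/-- The property of Q1: for every `ε > 0` there is a non-zero algebraic integer of some degree
`n ≥ 2` with exactly `s` real conjugates and `‖α‖ ^ 2 < n 2 ^ (s / n - 1) + ε`. -/
def Sharp (s : ℕ) : Prop := ∀ ε : ℝ, 0 < ε → ∃ α : ℂ, α ≠ 0 ∧ IsIntegral ℤ α ∧
  2 ≤ (minpoly ℚ α).natDegree ∧ numReal α = s ∧
  sqSize α < (minpoly ℚ α).natDegree * (2 : ℝ) ^ ((s : ℝ) / (minpoly ℚ α).natDegree - 1) + ε

/-- the polynomial -/
noncomputable def P (k : ℕ) : ℤ[X] :=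
  X ^ (4 * k) + (2 * (X ^ 2 - 1) * X ^ (2 * k) + (2 * X ^ 2 - 1) ^ 2)

lemma deg_aux (k : ℕ) (hk : 2 ≤ k) :
    (2 * (X ^ 2 - 1) * X ^ (2 * k) + (2 * X ^ 2 - 1) ^ 2 : ℤ[X]).degree < ((4 * k : ℕ) : WithBot ℕ) := by
  have h1 : (2 * (X ^ 2 - 1) * X ^ (2 * k) : ℤ[X]).natDegree ≤ 2 * k + 2 := by
    compute_degree
    omega
  have h2 : ((2 * X ^ 2 - 1) ^ 2 : ℤ[X]).natDegree ≤ 4 := by
    compute_degree
  refine lt_of_le_of_lt (degree_add_le _ _) (max_lt ?_ ?_)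
  · refine lt_of_le_of_lt degree_le_natDegree ?_
    exact_mod_cast (by omega : (2 * (X ^ 2 - 1) * X ^ (2 * k) : ℤ[X]).natDegree < 4 * k)
  · refine lt_of_le_of_lt degree_le_natDegree ?_
    exact_mod_cast (by omega : ((2 * X ^ 2 - 1) ^ 2 : ℤ[X]).natDegree < 4 * k)

lemma P_monic (k : ℕ) (hk : 2 ≤ k) : (P k).Monic := monic_X_pow_add (deg_aux k hk)

lemma P_natDegree (k : ℕ) (hk : 2 ≤ k) : (P k).natDegree = 4 * k := by
  unfold P
  rw [natDegree_eq_of_degree_eq (degree_add_eq_left_of_degree_lt ?_), natDegree_X_pow]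
  rw [degree_X_pow]
  exact deg_aux k hk

lemma P_map_two (m : ℕ) : (P (2 ^ m)).map (Int.castRingHom (ZMod 2)) = (X + 1) ^ (2 ^ (m + 2)) := by
  have h2 : (2 : (ZMod 2)[X]) = 0 := by
    exact_mod_cast CharP.cast_eq_zero (ZMod 2)[X] 2
  have : Fact (Nat.Prime 2) := ⟨Nat.prime_two⟩
  unfold P
  rw [add_pow_char_pow, one_pow]
  simp only [Polynomial.map_add, Polynomial.map_mul, Polynomial.map_sub, Polynomial.map_pow,
    Polynomial.map_ofNat, Polynomial.map_one, map_X, h2]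
  rw [show 4 * 2 ^ m = 2 ^ (m + 2) by ring]
  ring

lemma P_irreducible (m : ℕ) (hm : 1 ≤ m) : Irreducible (P (2 ^ m)) := by
  have hk : 2 ≤ 2 ^ m := by
    calc 2 = 2 ^ 1 := rfl
      _ ≤ 2 ^ m := Nat.pow_le_pow_right (by norm_num) hm
  set f : ℤ[X] := (P (2 ^ m)).comp (X + 1) with hf
  have hfm : f.Monic := (P_monic _ hk).comp (monic_X_add_C 1) (by
    rw [show (X + 1 : ℤ[X]) = X + C 1 by simp, natDegree_X_add_C]; norm_num)
  have hfd : f.natDegree = 4 * 2 ^ m := by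
    rw [hf, natDegree_comp, P_natDegree _ hk, show (X + 1 : ℤ[X]) = X + C 1 by simp,
      natDegree_X_add_C, mul_one]
  have hfmap : f.map (Int.castRingHom (ZMod 2)) = X ^ (4 * 2 ^ m) := by
    rw [hf, map_comp, P_map_two, Polynomial.map_add, map_X, Polynomial.map_one]
    have h2 : (1 : (ZMod 2)[X]) + 1 = 0 := by
      rw [← C_1, ← C_add, show (1 : ZMod 2) + 1 = 0 from rfl, C_0]
    rw [pow_comp, add_comp, X_comp, one_comp, add_assoc, h2, add_zero]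
    congr 1
    ring
  have hirr : Irreducible f := by
    have hprime : (Ideal.span {(2 : ℤ)}).IsPrime := by
      rw [Ideal.span_singleton_prime (by norm_num)]
      exact Int.prime_two
    refine irreducible_of_eisenstein_criterion hprime ?_ ?_ ?_ ?_ hfm.isPrimitive
    · rw [hfm.leadingCoeff, Ideal.mem_span_singleton]
      norm_num
    · intro n hn
      rw [degree_eq_natDegree hfm.ne_zero, hfd] at hn
      have hn : n < 4 * 2 ^ m := by exact_mod_cast hn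
      have h := congrArg (fun g => coeff g n) hfmap
      simp only [coeff_map, coeff_X_pow, if_neg hn.ne] at h
      rw [Ideal.mem_span_singleton]
      exact (ZMod.intCast_zmod_eq_zero_iff_dvd _ 2).1 (by simpa using h)
    · rw [degree_eq_natDegree hfm.ne_zero, hfd]
      exact_mod_cast (by positivity : 0 < 4 * 2 ^ m)
    · have h0 : f.coeff 0 = 2 := by
        rw [coeff_zero_eq_eval_zero, hf, eval_comp]
        unfold P
        simp
      rw [h0, Ideal.span_singleton_pow, Ideal.mem_span_singleton]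
      norm_num
  -- transfer
  refine ⟨?_, ?_⟩
  · intro hu
    have := natDegree_eq_zero_of_isUnit hu
    rw [P_natDegree _ hk] at this
    omega
  · intro a b hab
    have h1 : f = a.comp (X + 1) * b.comp (X + 1) := by rw [hf, hab, mul_comp]
    have hunit : ∀ c : ℤ[X], IsUnit (c.comp (X + 1)) → IsUnit c := by
      intro c hc
      have h2 : (c.comp (X + 1)).comp (X - 1) = c := by
        rw [comp_assoc]
        simp
      rw [← h2]
      exact hc.map (compRingHom (X - 1 : ℤ[X]))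
    rcases hirr.isUnit_or_isUnit h1 with h | h
    · exact Or.inl (hunit a h)
    · exact Or.inr (hunit b h)

/-- `Q(y)`, so that the polynomial is `Q(x ^ 2)` -/
def Q (k : ℕ) (y : ℂ) : ℂ := y ^ (2 * k) + 2 * (y - 1) * y ^ k + (2 * y - 1) ^ 2

lemma Q_large {k : ℕ} (hk : 2 ≤ k) {y : ℂ} (hy : Q k y = 0) (h1 : 1 ≤ ‖y‖) :
    |Real.log ‖y‖| ≤ 4 / k := by
  set a := ‖y‖ with ha
  have ha0 : 0 < a := by linarith
  have e : y ^ (2 * k) = -(2 * (y - 1) * y ^ k + (2 * y - 1) ^ 2) := by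
    unfold Q at hy
    linear_combination hy
  have h2 : ‖y - 1‖ ≤ 2 * a := by
    calc ‖y - 1‖ ≤ ‖y‖ + ‖(1 : ℂ)‖ := norm_sub_le _ _
      _ = a + 1 := by rw [norm_one]
      _ ≤ 2 * a := by linarith
  have h3 : ‖2 * y - 1‖ ≤ 3 * a := by
    calc ‖2 * y - 1‖ ≤ ‖2 * y‖ + ‖(1 : ℂ)‖ := norm_sub_le _ _
      _ = 2 * a + 1 := by rw [norm_one, norm_mul]; norm_num [ha]
      _ ≤ 3 * a := by linarith
  have h4 : (a ^ k) ^ 2 ≤ 4 * a * a ^ k + 9 * a ^ 2 := by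
    have h5 : ‖y ^ (2 * k)‖ = (a ^ k) ^ 2 := by rw [norm_pow, ← pow_mul, mul_comm k 2]
    rw [← h5, e, norm_neg]
    calc ‖2 * (y - 1) * y ^ k + (2 * y - 1) ^ 2‖
        ≤ ‖2 * (y - 1) * y ^ k‖ + ‖(2 * y - 1) ^ 2‖ := norm_add_le _ _
      _ = 2 * ‖y - 1‖ * a ^ k + ‖2 * y - 1‖ ^ 2 := by
          rw [norm_mul, norm_mul, norm_pow, norm_pow]; norm_num [ha]
      _ ≤ 2 * (2 * a) * a ^ k + (3 * a) ^ 2 := by gcongr
      _ = 4 * a * a ^ k + 9 * a ^ 2 := by ring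
  have h6 : a ^ k ≤ 6 * a := by
    by_contra h
    push Not at h
    nlinarith
  have h7 : (k : ℝ) * Real.log a ≤ Real.log 6 + Real.log a := by
    have := Real.log_le_log (by positivity) h6
    rwa [Real.log_pow, Real.log_mul (by norm_num) ha0.ne'] at this
  have h8 : Real.log 6 ≤ 2 := by
    rw [Real.log_le_iff_le_exp (by norm_num)]
    have h9 : (2.7 : ℝ) ≤ Real.exp 1 := by
      have := Real.exp_one_gt_d9
      linarith
    have h10 : Real.exp 2 = Real.exp 1 * Real.exp 1 := by rw [← Real.exp_add]; norm_num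
    rw [h10]
    nlinarith
  have h11 : 0 ≤ Real.log a := Real.log_nonneg h1
  have hk' : (2 : ℝ) ≤ k := by exact_mod_cast hk
  rw [abs_of_nonneg h11, le_div_iff₀ (by linarith)]
  nlinarith

lemma Q_small {k : ℕ} {y : ℂ} (hy : Q k y = 0) (h1 : ‖y‖ ≤ 1) :
    ‖2 * y - 1‖ ^ 2 ≤ 5 * ‖y‖ ^ k := by
  have e : (2 * y - 1) ^ 2 = -(y ^ (2 * k) + 2 * (y - 1) * y ^ k) := by
    unfold Q at hy
    linear_combination hy
  have h2 : ‖y - 1‖ ≤ 2 := by
    calc ‖y - 1‖ ≤ ‖y‖ + ‖(1 : ℂ)‖ := norm_sub_le _ _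
      _ ≤ 2 := by rw [norm_one]; linarith
  have h3 : ‖y‖ ^ k ≤ 1 := pow_le_one₀ (norm_nonneg _) h1
  have h0 : 0 ≤ ‖y‖ ^ k := by positivity
  rw [← norm_pow, e, norm_neg]
  calc ‖y ^ (2 * k) + 2 * (y - 1) * y ^ k‖ ≤ ‖y ^ (2 * k)‖ + ‖2 * (y - 1) * y ^ k‖ :=
        norm_add_le _ _
    _ = ‖y‖ ^ k * ‖y‖ ^ k + 2 * ‖y - 1‖ * ‖y‖ ^ k := by
        rw [norm_mul, norm_mul, norm_pow, norm_pow, ← pow_add, two_mul]; norm_num
    _ ≤ 1 * ‖y‖ ^ k + 2 * 2 * ‖y‖ ^ k := by gcongr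
    _ = 5 * ‖y‖ ^ k := by ring

lemma Q_mid {k : ℕ} (hk : 2 ≤ k) {y : ℂ} (hy : Q k y = 0) (h1 : 3 / 4 ≤ ‖y‖) :
    |Real.log ‖y‖| ≤ 4 / k := by
  rcases le_total 1 ‖y‖ with h | h
  · exact Q_large hk hy h
  · have h2 := Q_small hy h
    have h3 : 1 / 2 ≤ ‖2 * y - 1‖ := by
      have := norm_sub_norm_le (2 * y) 1
      rw [norm_one, norm_mul] at this
      norm_num at this
      linarith
    have h4 : 1 / 20 ≤ ‖y‖ ^ k := by nlinarith
    have h5 : 0 < ‖y‖ := by linarith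
    have h6 : Real.log (1 / 20) ≤ k * Real.log ‖y‖ := by
      rw [← Real.log_pow]
      exact Real.log_le_log (by norm_num) h4
    have h7 : -4 ≤ Real.log (1 / 20) := by
      rw [one_div, Real.log_inv, neg_le_neg_iff, Real.log_le_iff_le_exp (by norm_num)]
      have h9 : (2.7 : ℝ) ≤ Real.exp 1 := by
        have := Real.exp_one_gt_d9
        linarith
      have h10 : Real.exp 4 = (Real.exp 1 * Real.exp 1) * (Real.exp 1 * Real.exp 1) := by
        rw [← Real.exp_add, ← Real.exp_add]; norm_num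
      have h11 : 7 ≤ Real.exp 1 * Real.exp 1 := by nlinarith
      rw [h10]
      nlinarith
    have hk' : (2 : ℝ) ≤ k := by exact_mod_cast hk
    rw [abs_of_nonpos (Real.log_nonpos h5.le h), le_div_iff₀ (by linarith)]
    nlinarith

lemma pow_diff {ρ : ℝ} {y z : ℂ} (hy : ‖y‖ ≤ ρ) (hz : ‖z‖ ≤ ρ) (j : ℕ) :
    ‖y ^ (j + 1) - z ^ (j + 1)‖ ≤ (j + 1) * ρ ^ j * ‖y - z‖ := by
  have hρ : 0 ≤ ρ := (norm_nonneg _).trans hy
  induction j with
  | zero => simp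
  | succ j ih =>
    have e : y ^ (j + 1 + 1) - z ^ (j + 1 + 1) =
        y * (y ^ (j + 1) - z ^ (j + 1)) + (y - z) * z ^ (j + 1) := by ring
    rw [e]
    calc ‖y * (y ^ (j + 1) - z ^ (j + 1)) + (y - z) * z ^ (j + 1)‖
        ≤ ‖y * (y ^ (j + 1) - z ^ (j + 1))‖ + ‖(y - z) * z ^ (j + 1)‖ := norm_add_le _ _
      _ = ‖y‖ * ‖y ^ (j + 1) - z ^ (j + 1)‖ + ‖y - z‖ * ‖z‖ ^ (j + 1) := by
          rw [norm_mul, norm_mul, norm_pow]
      _ ≤ ρ * ((j + 1) * ρ ^ j * ‖y - z‖) + ‖y - z‖ * ρ ^ (j + 1) := by gcongr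
      _ = ((j + 1 : ℕ) + 1) * ρ ^ (j + 1) * ‖y - z‖ := by push_cast; ring

lemma Q_pair {k : ℕ} {y z : ℂ} (hy : Q (k + 1) y = 0) (hz : Q (k + 1) z = 0)
    (hy1 : ‖y‖ ≤ 13 / 20) (hz1 : ‖z‖ ≤ 13 / 20) (hne : y ≠ z) :
    ‖y + z - 1‖ ≤ 3 / 2 * (k + 2) * (13 / 20) ^ k := by
  have h0 : 0 < ‖y - z‖ := norm_pos_iff.2 (sub_ne_zero.2 hne)
  have e : 4 * ((y - z) * (y + z - 1)) = 2 * (y ^ (k + 1) - z ^ (k + 1)) -
      2 * (y ^ (k + 1 + 1) - z ^ (k + 1 + 1)) - (y ^ (2 * k + 1 + 1) - z ^ (2 * k + 1 + 1)) := by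
    unfold Q at hy hz
    linear_combination hy - hz
  have d1 := pow_diff hy1 hz1 k
  have d2 := pow_diff hy1 hz1 (k + 1)
  have d3 := pow_diff hy1 hz1 (2 * k + 1)
  have hρ : (0 : ℝ) < (13 / 20) ^ k := by positivity
  have hρ1 : ((13 / 20 : ℝ)) ^ (k + 1) ≤ (13 / 20) ^ k :=
    pow_le_pow_of_le_one (by norm_num) (by norm_num) (by omega)
  have hρ2 : ((13 / 20 : ℝ)) ^ (2 * k + 1) ≤ (13 / 20) ^ k :=
    pow_le_pow_of_le_one (by norm_num) (by norm_num) (by omega)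
  have h4 : 4 * (‖y - z‖ * ‖y + z - 1‖) ≤ (6 * k + 8) * (13 / 20) ^ k * ‖y - z‖ := by
    have h5 : 4 * (‖y - z‖ * ‖y + z - 1‖) = ‖4 * ((y - z) * (y + z - 1))‖ := by
      rw [norm_mul, norm_mul]; norm_num
    rw [h5, e]
    calc ‖2 * (y ^ (k + 1) - z ^ (k + 1)) -
      2 * (y ^ (k + 1 + 1) - z ^ (k + 1 + 1)) - (y ^ (2 * k + 1 + 1) - z ^ (2 * k + 1 + 1))‖
      ≤ ‖2 * (y ^ (k + 1) - z ^ (k + 1)) - 2 * (y ^ (k + 1 + 1) - z ^ (k + 1 + 1))‖ +
        ‖y ^ (2 * k + 1 + 1) - z ^ (2 * k + 1 + 1)‖ := norm_sub_le _ _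
      _ ≤ (‖2 * (y ^ (k + 1) - z ^ (k + 1))‖ + ‖2 * (y ^ (k + 1 + 1) - z ^ (k + 1 + 1))‖) +
        ‖y ^ (2 * k + 1 + 1) - z ^ (2 * k + 1 + 1)‖ := by gcongr; exact norm_sub_le _ _
      _ = (2 * ‖y ^ (k + 1) - z ^ (k + 1)‖ + 2 * ‖y ^ (k + 1 + 1) - z ^ (k + 1 + 1)‖) +
        ‖y ^ (2 * k + 1 + 1) - z ^ (2 * k + 1 + 1)‖ := by rw [norm_mul, norm_mul]; norm_num
      _ ≤ (2 * ((k + 1) * (13 / 20) ^ k * ‖y - z‖) +
          2 * (((k + 1 : ℕ) + 1) * (13 / 20) ^ (k + 1) * ‖y - z‖)) +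
        (((2 * k + 1 : ℕ) + 1) * (13 / 20) ^ (2 * k + 1) * ‖y - z‖) := by gcongr
      _ ≤ (2 * ((k + 1) * (13 / 20) ^ k * ‖y - z‖) +
          2 * (((k + 1 : ℕ) + 1) * (13 / 20) ^ k * ‖y - z‖)) +
        (((2 * k + 1 : ℕ) + 1) * (13 / 20) ^ k * ‖y - z‖) := by gcongr
      _ = (6 * k + 8) * (13 / 20) ^ k * ‖y - z‖ := by push_cast; ring
  have h6 : 4 * ‖y + z - 1‖ ≤ (6 * k + 8) * (13 / 20) ^ k := by
    by_contra h
    push Not at h
    nlinarith
  nlinarith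

/-- at most two roots in the small disc -/
lemma Q_three {k : ℕ} {x y z : ℂ} (hx : Q (k + 1) x = 0) (hy : Q (k + 1) y = 0)
    (hz : Q (k + 1) z = 0) (hx1 : ‖x‖ ≤ 13 / 20) (hy1 : ‖y‖ ≤ 13 / 20) (hz1 : ‖z‖ ≤ 13 / 20)
    (hxy : x ≠ y) (hxz : x ≠ z) (hyz : y ≠ z) :
    ‖2 * x - 1‖ ≤ 9 / 2 * (k + 2) * (13 / 20) ^ k := by
  have h1 := Q_pair hx hy hx1 hy1 hxy
  have h2 := Q_pair hx hz hx1 hz1 hxz
  have h3 := Q_pair hy hz hy1 hz1 hyz
  have e : 2 * x - 1 = (x + y - 1) + (x + z - 1) - (y + z - 1) := by ring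
  rw [e]
  calc ‖(x + y - 1) + (x + z - 1) - (y + z - 1)‖
      ≤ ‖(x + y - 1) + (x + z - 1)‖ + ‖y + z - 1‖ := norm_sub_le _ _
    _ ≤ (‖x + y - 1‖ + ‖x + z - 1‖) + ‖y + z - 1‖ := by gcongr; exact norm_add_le _ _
    _ ≤ _ := by linarith

/-- real version -/
def q (k : ℕ) (t : ℝ) : ℝ := t ^ (2 * k) + 2 * (t - 1) * t ^ k + (2 * t - 1) ^ 2

lemma Q_ofReal (k : ℕ) (t : ℝ) : Q k (t : ℂ) = (q k t : ℂ) := by
  unfold Q q; push_cast; ring

lemma q_cont (k : ℕ) : Continuous (q k) := by unfold q; fun_prop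

lemma q_half {k : ℕ} (hk : 1 ≤ k) : q k (1 / 2) < 0 := by
  unfold q
  have h1 : (1 / 2 : ℝ) ^ k < 1 := pow_lt_one₀ (by norm_num) (by norm_num) (by omega)
  have h2 : (0 : ℝ) < (1 / 2) ^ k := by positivity
  rw [mul_comm 2 k, pow_mul]
  nlinarith

lemma q_zero {k : ℕ} (hk : 1 ≤ k) : 0 < q k 0 := by
  unfold q
  rw [zero_pow (by omega), zero_pow (by omega)]
  norm_num

lemma q_two_thirds {k : ℕ} (hk : 3 ≤ k) : 0 < q k (2 / 3) := by
  unfold q
  have h1 : (2 / 3 : ℝ) ^ k ≤ (2 / 3) ^ 3 := pow_le_pow_of_le_one (by norm_num) (by norm_num) hk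
  have h3 : (2 / 3 : ℝ) ^ k < 1 / 3 := by norm_num at h1 ⊢; linarith
  rw [mul_comm 2 k, pow_mul]
  nlinarith

lemma q_pos {k : ℕ} {t : ℝ} (ht : 2 / 3 < t) : 0 < q k t := by
  unfold q
  rw [mul_comm 2 k, pow_mul]
  nlinarith [sq_nonneg (t ^ k + (t - 1))]

lemma exists_roots {k : ℕ} (hk : 3 ≤ k) : ∃ y₁ y₂ : ℝ, 0 < y₁ ∧ y₁ < 1 / 2 ∧ 1 / 2 < y₂ ∧
    y₂ < 2 / 3 ∧ q k y₁ = 0 ∧ q k y₂ = 0 := by
  have h0 := q_zero (k := k) (by omega)
  have h1 := q_half (k := k) (by omega)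
  have h2 := q_two_thirds hk
  obtain ⟨y₁, hy₁, hq₁⟩ := intermediate_value_Icc' (show (0 : ℝ) ≤ 1 / 2 by norm_num)
    (q_cont k).continuousOn (show (0 : ℝ) ∈ Set.Icc (q k (1 / 2)) (q k 0) from ⟨h1.le, h0.le⟩)
  obtain ⟨y₂, hy₂, hq₂⟩ := intermediate_value_Icc (show (1 / 2 : ℝ) ≤ 2 / 3 by norm_num)
    (q_cont k).continuousOn (show (0 : ℝ) ∈ Set.Icc (q k (1 / 2)) (q k (2 / 3)) from ⟨h1.le, h2.le⟩)
  refine ⟨y₁, y₂, lt_of_le_of_ne hy₁.1 ?_, lt_of_le_of_ne hy₁.2 ?_, lt_of_le_of_ne hy₂.1 ?_,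
    lt_of_le_of_ne hy₂.2 ?_, hq₁, hq₂⟩
  · rintro rfl; exact h0.ne' hq₁
  · rintro rfl; exact h1.ne hq₁
  · rintro rfl; exact h1.ne hq₂
  · rintro rfl; exact h2.ne' hq₂

lemma y2_lower {k : ℕ} (hk : 2 ≤ k) {y : ℝ} (h1 : 1 / 2 < y) (h2 : y < 2 / 3) (hq : q k y = 0) :
    2 / 9 * (1 / 2) ^ k ≤ (2 * y - 1) ^ 2 := by
  have e : (2 * y - 1) ^ 2 = y ^ k * (2 * (1 - y) - y ^ k) := by
    unfold q at hq
    rw [mul_comm 2 k, pow_mul] at hq
    linear_combination hq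
  have h3 : y ^ k ≤ 4 / 9 := by
    calc y ^ k ≤ (2 / 3) ^ k := by gcongr
      _ ≤ (2 / 3) ^ 2 := pow_le_pow_of_le_one (by norm_num) (by norm_num) hk
      _ = 4 / 9 := by norm_num
  have h4 : (1 / 2) ^ k ≤ y ^ k := by gcongr
  have h5 : (0 : ℝ) < (1 / 2) ^ k := by positivity
  rw [e]
  nlinarith

/-- the analytic estimate -/
lemma main_estimate (T : Finset ℂ) (k : ℕ) (hk : 4 ≤ k) (hcard : T.card = 4 * k)
    (hprod : ∏ z ∈ T, ‖z‖ = 1) (hconj : ∀ z ∈ T, (starRingEnd ℂ) z ∈ T)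
    (y₁ y₂ δ : ℝ) (hy₁ : 0 < y₁) (hy₂ : 0 < y₂) (hne : y₁ ≠ y₂)
    (hδ1 : |2 * y₁ - 1| ≤ δ) (hδ2 : |2 * y₂ - 1| ≤ δ) (hδ : δ < 1)
    (hreal : T.filter (fun z => z.im = 0) =
      {(Real.sqrt y₁ : ℂ), -(Real.sqrt y₁ : ℂ), (Real.sqrt y₂ : ℂ), -(Real.sqrt y₂ : ℂ)})
    (hlog : ∀ z ∈ T, z.im ≠ 0 → |2 * Real.log ‖z‖| ≤ 4 / k) :
    (T.filter (fun z => z.im = 0)).card = 4 ∧
    ∑ z ∈ T.filter (fun z => 0 ≤ z.im), ‖z‖ ^ 2 ≤
      2 * k + 2 * Real.log 2 + (2 * δ - 2 * Real.log (1 - δ) + 32 / k) := by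
  have hk' : (4 : ℝ) ≤ k := by exact_mod_cast hk
  have hs1 : 0 < Real.sqrt y₁ := Real.sqrt_pos.2 hy₁
  have hs2 : 0 < Real.sqrt y₂ := Real.sqrt_pos.2 hy₂
  have hs12 : Real.sqrt y₁ ≠ Real.sqrt y₂ := fun h => hne ((Real.sqrt_inj hy₁.le hy₂.le).1 h)
  have n1 : (Real.sqrt y₁ : ℂ) ∉ ({-(Real.sqrt y₁ : ℂ), (Real.sqrt y₂ : ℂ),
      -(Real.sqrt y₂ : ℂ)} : Finset ℂ) := by
    simp only [Finset.mem_insert, Finset.mem_singleton, not_or]
    refine ⟨?_, ?_, ?_⟩ <;> intro h <;> norm_cast at h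
    · linarith
    · linarith
  have n2 : -(Real.sqrt y₁ : ℂ) ∉ ({(Real.sqrt y₂ : ℂ), -(Real.sqrt y₂ : ℂ)} : Finset ℂ) := by
    simp only [Finset.mem_insert, Finset.mem_singleton, not_or]
    refine ⟨?_, ?_⟩ <;> intro h
    · norm_cast at h; linarith
    · rw [neg_inj] at h; norm_cast at h
  have n3 : (Real.sqrt y₂ : ℂ) ∉ ({-(Real.sqrt y₂ : ℂ)} : Finset ℂ) := by
    simp only [Finset.mem_singleton]
    intro h; norm_cast at h; linarith
  have hA4 : (T.filter (fun z => z.im = 0)).card = 4 := by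
    rw [hreal, Finset.card_insert_of_notMem n1, Finset.card_insert_of_notMem n2,
      Finset.card_insert_of_notMem n3, Finset.card_singleton]
  refine ⟨hA4, ?_⟩
  set A := T.filter (fun z => z.im = 0) with hA
  set B := T.filter (fun z => ¬ z.im = 0) with hB
  have hsq1 : Real.sqrt y₁ ^ 2 = y₁ := Real.sq_sqrt hy₁.le
  have hsq2 : Real.sqrt y₂ ^ 2 = y₂ := Real.sq_sqrt hy₂.le
  have sumA : ∑ z ∈ A, ‖z‖ ^ 2 = 2 * (y₁ + y₂) := by
    rw [hreal, Finset.sum_insert n1, Finset.sum_insert n2, Finset.sum_insert n3,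
      Finset.sum_singleton]
    rw [norm_neg, norm_neg, Complex.norm_real, Complex.norm_real, Real.norm_eq_abs,
      Real.norm_eq_abs, abs_of_pos hs1, abs_of_pos hs2, hsq1, hsq2]
    ring
  have prodA : ∏ z ∈ A, ‖z‖ = y₁ * y₂ := by
    rw [hreal, Finset.prod_insert n1, Finset.prod_insert n2, Finset.prod_insert n3,
      Finset.prod_singleton]
    rw [norm_neg, norm_neg, Complex.norm_real, Complex.norm_real, Real.norm_eq_abs,
      Real.norm_eq_abs, abs_of_pos hs1, abs_of_pos hs2]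
    calc Real.sqrt y₁ * (Real.sqrt y₁ * (Real.sqrt y₂ * Real.sqrt y₂))
        = Real.sqrt y₁ ^ 2 * Real.sqrt y₂ ^ 2 := by ring
      _ = y₁ * y₂ := by rw [hsq1, hsq2]
  have hnz : ∀ z ∈ T, z ≠ 0 := by
    intro z hz h0
    rw [Finset.prod_eq_zero hz (by rw [h0, norm_zero])] at hprod
    exact zero_ne_one hprod
  have prodB : ∏ z ∈ B, ‖z‖ = (y₁ * y₂)⁻¹ := by
    have h := Finset.prod_filter_mul_prod_filter_not T (fun z => z.im = 0) (fun z => ‖z‖)
    rw [hprod, ← hA, ← hB, prodA] at h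
    exact eq_inv_of_mul_eq_one_right h
  have cardB : (B.card : ℝ) = 4 * k - 4 := by
    have h := Finset.card_filter_add_card_filter_not (s := T) (fun z => z.im = 0)
    rw [← hA, ← hB, hA4, hcard] at h
    have : (4 : ℝ) + B.card = 4 * k := by exact_mod_cast h
    linarith
  have logB : ∑ z ∈ B, Real.log ‖z‖ = -(Real.log y₁ + Real.log y₂) := by
    rw [← Real.log_prod (s := B) (f := fun z => ‖z‖) (fun z hz => by
      have := hnz z (Finset.mem_filter.1 hz).1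
      exact norm_ne_zero_iff.2 this), prodB, Real.log_inv, Real.log_mul hy₁.ne' hy₂.ne']
  -- split of the sum
  have hsplit : ∑ z ∈ T.filter (fun z => 0 ≤ z.im), ‖z‖ ^ 2 =
      ∑ z ∈ A, ‖z‖ ^ 2 + (1 / 2) * ∑ z ∈ B, ‖z‖ ^ 2 := by
    have e1 : ∑ z ∈ T.filter (fun z => 0 ≤ z.im), ‖z‖ ^ 2 =
        ∑ z ∈ A, ‖z‖ ^ 2 + ∑ z ∈ T.filter (fun z => 0 < z.im), ‖z‖ ^ 2 := by
      rw [← Finset.sum_union]
      · congr 1
        ext z
        simp only [hA, Finset.mem_filter, Finset.mem_union]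
        constructor
        · rintro ⟨h1, h2⟩
          rcases h2.eq_or_lt with h3 | h3
          · exact Or.inl ⟨h1, h3.symm⟩
          · exact Or.inr ⟨h1, h3⟩
        · rintro (⟨h1, h2⟩ | ⟨h1, h2⟩)
          · exact ⟨h1, h2.ge⟩
          · exact ⟨h1, h2.le⟩
      · rw [Finset.disjoint_left]
        intro z h1 h2
        rw [hA, Finset.mem_filter] at h1
        rw [Finset.mem_filter] at h2
        exact h2.2.ne' h1.2
    have e2 : ∑ z ∈ B, ‖z‖ ^ 2 = ∑ z ∈ T.filter (fun z => 0 < z.im), ‖z‖ ^ 2 +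
        ∑ z ∈ T.filter (fun z => z.im < 0), ‖z‖ ^ 2 := by
      rw [← Finset.sum_union]
      · congr 1
        ext z
        simp only [hB, Finset.mem_filter, Finset.mem_union]
        constructor
        · rintro ⟨h1, h2⟩
          rcases lt_or_gt_of_ne h2 with h3 | h3
          · exact Or.inr ⟨h1, h3⟩
          · exact Or.inl ⟨h1, h3⟩
        · rintro (⟨h1, h2⟩ | ⟨h1, h2⟩)
          · exact ⟨h1, h2.ne'⟩
          · exact ⟨h1, h2.ne⟩
      · rw [Finset.disjoint_left]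
        intro z h1 h2
        rw [Finset.mem_filter] at h1 h2
        exact absurd h1.2 (not_lt.2 h2.2.le)
    have e3 : ∑ z ∈ T.filter (fun z => 0 < z.im), ‖z‖ ^ 2 =
        ∑ z ∈ T.filter (fun z => z.im < 0), ‖z‖ ^ 2 := by
      refine Finset.sum_nbij' (fun z => (starRingEnd ℂ) z) (fun z => (starRingEnd ℂ) z) ?_ ?_ ?_ ?_ ?_
      · intro z hz
        rw [Finset.mem_filter] at hz ⊢
        exact ⟨hconj z hz.1, by rw [Complex.conj_im]; linarith [hz.2]⟩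
      · intro z hz
        rw [Finset.mem_filter] at hz ⊢
        exact ⟨hconj z hz.1, by rw [Complex.conj_im]; linarith [hz.2]⟩
      · intro z _; exact Complex.conj_conj z
      · intro z _; exact Complex.conj_conj z
      · intro z _; rw [RCLike.norm_conj]
    rw [e1, e2, ← e3]
    ring
  have hB2 : ∑ z ∈ B, ‖z‖ ^ 2 ≤ ∑ z ∈ B, (1 + 2 * Real.log ‖z‖ + 16 / k ^ 2) := by
    refine Finset.sum_le_sum fun z hz => ?_
    rw [hB, Finset.mem_filter] at hz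
    have hz0 : 0 < ‖z‖ := norm_pos_iff.2 (hnz z hz.1)
    have h1 := hlog z hz.1 hz.2
    have h2 : (4 : ℝ) / k ≤ 1 := by rw [div_le_one (by linarith)]; exact hk'
    have h3 := Real.abs_exp_sub_one_sub_id_le (h1.trans h2)
    have h4 : ‖z‖ ^ 2 = Real.exp (2 * Real.log ‖z‖) := by
      rw [mul_comm, Real.exp_mul, Real.exp_log hz0]
      norm_num
    rw [h4]
    have h5 := (abs_le.1 h3).2
    have h6 : (2 * Real.log ‖z‖) ^ 2 ≤ 16 / (k : ℝ) ^ 2 := by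
      rw [← sq_abs]
      calc |2 * Real.log ‖z‖| ^ 2 ≤ (4 / (k : ℝ)) ^ 2 := by gcongr
        _ = 16 / (k : ℝ) ^ 2 := by rw [div_pow]; norm_num
    linarith
  rw [hsplit, sumA]
  rw [Finset.sum_add_distrib, Finset.sum_add_distrib, Finset.sum_const, Finset.sum_const,
    nsmul_eq_mul, nsmul_eq_mul, cardB, ← Finset.mul_sum, logB] at hB2
  have hl : ∀ y : ℝ, |2 * y - 1| ≤ δ → -Real.log y ≤ Real.log 2 - Real.log (1 - δ) := by
    intro y hy
    have h1 := (abs_le.1 hy).1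
    have h2 : (1 - δ) / 2 ≤ y := by linarith
    have h3 := Real.log_le_log (by linarith : (0 : ℝ) < (1 - δ) / 2) h2
    rw [Real.log_div (by linarith) (by norm_num)] at h3
    linarith
  have l1 := hl y₁ hδ1
  have l2 := hl y₂ hδ2
  have u1 := (abs_le.1 hδ1).2
  have u2 := (abs_le.1 hδ2).2
  have h7 : (4 * (k : ℝ) - 4) * (16 / k ^ 2) ≤ 64 / k := by
    have : (4 * (k : ℝ) - 4) * (16 / k ^ 2) = 64 / k - 64 / k ^ 2 := by
      field_simp
      ring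
    rw [this]
    have : 0 ≤ 64 / (k : ℝ) ^ 2 := by positivity
    linarith
  have h8 : (64 : ℝ) / k = 2 * (32 / k) := by ring
  rw [h8] at h7
  linarith

lemma eval_P (k : ℕ) (x : ℂ) : aeval x (P k) = Q k (x ^ 2) := by
  unfold P Q
  simp only [map_add, map_mul, map_sub, map_pow, aeval_X, map_one, map_ofNat]
  ring

/-- the construction for one `k = 2 ^ m` -/
lemma construct (m K : ℕ) (hK : 2 ^ m = K + 1) (hk : 4 ≤ K + 1)
    (c1 : 5 * (3 / 4 : ℝ) ^ (K + 1) ≤ 9 / 100)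
    (c2 : (9 / 2 * (K + 2) * (13 / 20 : ℝ) ^ K) ^ 2 < 2 / 9 * (1 / 2) ^ (K + 1)) :
    ∃ α : ℂ, α ≠ 0 ∧ IsIntegral ℤ α ∧ (minpoly ℚ α).natDegree = 4 * (K + 1) ∧ numReal α = 4 ∧
      sqSize α ≤ 2 * (K + 1 : ℕ) + 2 * Real.log 2 +
        (2 * Real.sqrt (5 * (3 / 4) ^ (K + 1)) -
          2 * Real.log (1 - Real.sqrt (5 * (3 / 4) ^ (K + 1))) + 32 / (K + 1 : ℕ)) := by
  obtain ⟨y₁, y₂, h1, h2, h3, h4, hq1, hq2⟩ := exists_roots (k := K + 1) (by omega)
  set δ := Real.sqrt (5 * (3 / 4 : ℝ) ^ (K + 1)) with hδ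
  have hδsq : δ ^ 2 = 5 * (3 / 4 : ℝ) ^ (K + 1) := Real.sq_sqrt (by positivity)
  have hδ0 : 0 ≤ δ := Real.sqrt_nonneg _
  have hδ3 : δ ≤ 3 / 10 := by
    by_contra h
    push Not at h
    nlinarith
  have hsmall : ∀ w : ℂ, Q (K + 1) w = 0 → ‖w‖ < 3 / 4 → ‖2 * w - 1‖ ≤ δ ∧ ‖w‖ ≤ 13 / 20 := by
    intro w hw hw1
    have e1 := Q_small hw (by linarith)
    have e2 : ‖w‖ ^ (K + 1) ≤ (3 / 4) ^ (K + 1) := by gcongr
    have e3 : ‖2 * w - 1‖ ≤ δ := by
      refine Real.le_sqrt_of_sq_le ?_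
      linarith
    refine ⟨e3, ?_⟩
    have e4 : ‖2 * w‖ ≤ ‖2 * w - 1‖ + ‖(1 : ℂ)‖ := by
      have := norm_add_le (2 * w - 1) 1
      rwa [sub_add_cancel] at this
    rw [norm_one, norm_mul] at e4
    norm_num at e4
    linarith
  have hQ1 : Q (K + 1) (y₁ : ℂ) = 0 := by rw [Q_ofReal, hq1, Complex.ofReal_zero]
  have hQ2 : Q (K + 1) (y₂ : ℂ) = 0 := by rw [Q_ofReal, hq2, Complex.ofReal_zero]
  have n1 : ‖(y₁ : ℂ)‖ = y₁ := by rw [Complex.norm_real, Real.norm_eq_abs, abs_of_pos h1]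
  have n2 : ‖(y₂ : ℂ)‖ = y₂ := by
    rw [Complex.norm_real, Real.norm_eq_abs, abs_of_pos (by linarith)]
  have s1 := hsmall y₁ hQ1 (by rw [n1]; linarith)
  have s2 := hsmall y₂ hQ2 (by rw [n2]; linarith)
  have hne : y₁ ≠ y₂ := (h2.trans h3).ne
  have hsm : ∀ w : ℂ, Q (K + 1) w = 0 → ‖w‖ < 3 / 4 → w = y₁ ∨ w = y₂ := by
    intro w hw hw1
    by_contra hcon
    push Not at hcon
    have hw2 := hsmall w hw hw1
    have e1 := Q_three hQ2 hQ1 hw s2.2 s1.2 hw2.2 (by exact_mod_cast hne.symm) hcon.2.symm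
      hcon.1.symm
    have e2 := y2_lower (k := K + 1) (by omega) h3 h4 hq2
    have e3 : ‖2 * (y₂ : ℂ) - 1‖ = |2 * y₂ - 1| := by
      rw [← Real.norm_eq_abs, ← Complex.norm_real]
      push_cast
      rfl
    rw [e3] at e1
    have e4 : (2 * y₂ - 1) ^ 2 ≤ (9 / 2 * (K + 2) * (13 / 20 : ℝ) ^ K) ^ 2 := by
      rw [← sq_abs (2 * y₂ - 1)]
      gcongr
    linarith
  have hd : ∀ y : ℝ, ‖2 * (y : ℂ) - 1‖ ≤ δ → |2 * y - 1| ≤ δ := by
    intro y hy
    rw [← Real.norm_eq_abs, ← Complex.norm_real]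
    push_cast
    exact hy
  -- the number
  set α : ℂ := (Real.sqrt y₁ : ℂ) with hα
  have hm1 : 1 ≤ m := by
    rcases Nat.eq_zero_or_pos m with h | h
    · rw [h, pow_zero] at hK; omega
    · exact h
  have hmonic : (P (K + 1)).Monic := P_monic _ (by omega)
  have hirr : Irreducible (P (K + 1)) := hK ▸ P_irreducible m hm1
  have hroot : aeval α (P (K + 1)) = 0 := by
    rw [eval_P, hα, ← Complex.ofReal_pow, Real.sq_sqrt h1.le, hQ1]
  have hirrQ : Irreducible ((P (K + 1)).map (algebraMap ℤ ℚ)) :=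
    (hmonic.irreducible_iff_irreducible_map_fraction_map).1 hirr
  have hmin : minpoly ℚ α = (P (K + 1)).map (algebraMap ℤ ℚ) := by
    symm
    refine minpoly.eq_of_irreducible_of_monic hirrQ ?_ (hmonic.map _)
    rw [aeval_map_algebraMap]
    exact hroot
  have hdeg : (minpoly ℚ α).natDegree = 4 * (K + 1) := by
    rw [hmin, hmonic.natDegree_map, P_natDegree _ (by omega)]
  have hα0 : α ≠ 0 := by
    rw [hα]
    exact_mod_cast (Real.sqrt_pos.2 h1).ne'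
  have hsep : (minpoly ℚ α).Separable := by rw [hmin]; exact hirrQ.separable
  have hnodup : ((minpoly ℚ α).aroots ℂ).Nodup := nodup_roots hsep.map
  have hmem : ∀ z : ℂ, z ∈ conjugates α ↔ Q (K + 1) (z ^ 2) = 0 := by
    intro z
    unfold conjugates
    rw [Multiset.mem_toFinset, mem_aroots, hmin, aeval_map_algebraMap, eval_P]
    exact ⟨fun h => h.2, fun h => ⟨(hmonic.map _).ne_zero, h⟩⟩
  have hcard : (conjugates α).card = 4 * (K + 1) := by
    unfold conjugates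
    rw [Multiset.toFinset_card_of_nodup hnodup]
    rw [aroots_def, IsAlgClosed.card_roots_eq_natDegree, natDegree_map, hdeg]
  have hprod : ∏ z ∈ conjugates α, ‖z‖ = 1 := by
    have e1 : ∏ z ∈ conjugates α, z = ((minpoly ℚ α).aroots ℂ).prod := by
      unfold conjugates
      rw [Finset.prod_eq_multiset_prod, Multiset.toFinset_val, hnodup.dedup, Multiset.map_id']
    have e2 := (IsAlgClosed.splits ((minpoly ℚ α).map (algebraMap ℚ ℂ))).coeff_zero_eq_prod_roots_of_monic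
      ((minpoly.monic (by rw [← isAlgebraic_iff_isIntegral]; exact ⟨_, (hmonic.map _).ne_zero, by
        rw [aeval_map_algebraMap]; exact hroot⟩)).map _)
    have e3 : ((minpoly ℚ α).map (algebraMap ℚ ℂ)).coeff 0 = 1 := by
      rw [hmin, coeff_map, coeff_map, coeff_zero_eq_eval_zero]
      unfold P
      simp
    rw [e3, ← aroots_def, ← e1] at e2
    have e4 := congrArg norm e2
    rw [norm_one, norm_mul, norm_pow, norm_neg, norm_one, one_pow, one_mul, norm_prod] at e4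
    exact e4.symm
  have hconj : ∀ z ∈ conjugates α, (starRingEnd ℂ) z ∈ conjugates α := by
    intro z hz
    rw [hmem] at hz ⊢
    have h2c : (starRingEnd ℂ) (2 : ℂ) = 2 := map_ofNat (starRingEnd ℂ) 2
    have : Q (K + 1) ((starRingEnd ℂ) z ^ 2) = (starRingEnd ℂ) (Q (K + 1) (z ^ 2)) := by
      unfold Q
      simp [h2c]
    rw [this, hz, map_zero]
  have hsqrt : ∀ (y : ℝ) (z : ℂ), 0 < y → z ^ 2 = (y : ℂ) →
      z = (Real.sqrt y : ℂ) ∨ z = -(Real.sqrt y : ℂ) := by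
    intro y z hy hz
    have : z ^ 2 = (Real.sqrt y : ℂ) ^ 2 := by
      rw [hz, ← Complex.ofReal_pow, Real.sq_sqrt hy.le]
    exact sq_eq_sq_iff_eq_or_eq_neg.1 this
  have hy2 : 0 < y₂ := by linarith
  have hreal : (conjugates α).filter (fun z => z.im = 0) =
      {(Real.sqrt y₁ : ℂ), -(Real.sqrt y₁ : ℂ), (Real.sqrt y₂ : ℂ), -(Real.sqrt y₂ : ℂ)} := by
    ext z
    simp only [Finset.mem_filter, Finset.mem_insert, Finset.mem_singleton, hmem]
    constructor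
    · rintro ⟨hz, him⟩
      have hz' : z ^ 2 = ((z.re ^ 2 : ℝ) : ℂ) := by
        conv_lhs => rw [← Complex.re_add_im z, him]
        push_cast; ring
      have hlt : z.re ^ 2 ≤ 2 / 3 := by
        by_contra h
        push Not at h
        have := q_pos (k := K + 1) h
        rw [hz', Q_ofReal] at hz
        exact this.ne' (by exact_mod_cast hz)
      have hn : ‖z ^ 2‖ < 3 / 4 := by
        rw [hz', Complex.norm_real, Real.norm_eq_abs, abs_of_nonneg (sq_nonneg _)]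
        linarith
      rcases hsm _ hz hn with h | h
      · rcases hsqrt y₁ z h1 h with h | h
        · exact Or.inl h
        · exact Or.inr (Or.inl h)
      · rcases hsqrt y₂ z hy2 h with h | h
        · exact Or.inr (Or.inr (Or.inl h))
        · exact Or.inr (Or.inr (Or.inr h))
    · rintro (rfl | rfl | rfl | rfl)
      · refine ⟨?_, Complex.ofReal_im _⟩
        rw [← Complex.ofReal_pow, Real.sq_sqrt h1.le, hQ1]
      · refine ⟨?_, by rw [Complex.neg_im, Complex.ofReal_im, neg_zero]⟩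
        rw [neg_sq, ← Complex.ofReal_pow, Real.sq_sqrt h1.le, hQ1]
      · refine ⟨?_, Complex.ofReal_im _⟩
        rw [← Complex.ofReal_pow, Real.sq_sqrt hy2.le, hQ2]
      · refine ⟨?_, by rw [Complex.neg_im, Complex.ofReal_im, neg_zero]⟩
        rw [neg_sq, ← Complex.ofReal_pow, Real.sq_sqrt hy2.le, hQ2]
  have hlog : ∀ z ∈ conjugates α, z.im ≠ 0 → |2 * Real.log ‖z‖| ≤ 4 / (K + 1 : ℕ) := by
    intro z hz him
    have hz' := (hmem z).1 hz
    have e : 2 * Real.log ‖z‖ = Real.log ‖z ^ 2‖ := by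
      rw [norm_pow, Real.log_pow]; norm_num
    rw [e]
    refine Q_mid (by omega) hz' ?_
    by_contra h
    push Not at h
    rcases hsm _ hz' h with h | h
    · rcases hsqrt y₁ z h1 h with h | h
      · exact him (by rw [h, Complex.ofReal_im])
      · exact him (by rw [h, Complex.neg_im, Complex.ofReal_im, neg_zero])
    · rcases hsqrt y₂ z hy2 h with h | h
      · exact him (by rw [h, Complex.ofReal_im])
      · exact him (by rw [h, Complex.neg_im, Complex.ofReal_im, neg_zero])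
  have hmain := main_estimate (conjugates α) (K + 1) hk hcard hprod hconj y₁ y₂ δ h1 hy2 hne
    (hd y₁ s1.1) (hd y₂ s2.1) (by linarith) hreal hlog
  exact ⟨α, hα0, ⟨P (K + 1), hmonic, by rw [← aeval_def]; exact hroot⟩, hdeg, hmain.1, hmain.2⟩

/-- The lower bound `n 2 ^ (s / n - 1)` for the absolute square size is sharp for `s = 4` real
conjugates. -/
theorem result : Sharp 4 := by
  intro ε hε
  -- limits
  have t0 : Tendsto (fun k : ℕ => (5 : ℝ) * (3 / 4) ^ k) atTop (𝓝 0) := by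
    have := (tendsto_pow_atTop_nhds_zero_of_lt_one (by norm_num : (0 : ℝ) ≤ 3 / 4)
      (by norm_num)).const_mul (5 : ℝ)
    rwa [mul_zero] at this
  have t1 : Tendsto (fun k : ℕ => Real.sqrt ((5 : ℝ) * (3 / 4) ^ k)) atTop (𝓝 0) := by
    have := (Real.continuous_sqrt.tendsto 0).comp t0
    rwa [Real.sqrt_zero] at this
  have t2 : Tendsto (fun k : ℕ => (2 * Real.sqrt (5 * (3 / 4) ^ k) -
      2 * Real.log (1 - Real.sqrt (5 * (3 / 4) ^ k)) + 32 / (k : ℝ))) atTop (𝓝 0) := by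
    have e1 : Tendsto (fun k : ℕ => Real.log (1 - Real.sqrt ((5 : ℝ) * (3 / 4) ^ k))) atTop
        (𝓝 0) := by
      have h1 := (tendsto_const_nhds (x := (1 : ℝ))).sub t1
      rw [sub_zero] at h1
      have h2 := (Real.continuousAt_log one_ne_zero).tendsto.comp h1
      rwa [Real.log_one] at h2
    have e2 : Tendsto (fun k : ℕ => 32 / (k : ℝ)) atTop (𝓝 0) :=
      tendsto_const_div_atTop_nhds_zero_nat 32
    have := ((t1.const_mul 2).sub (e1.const_mul 2)).add e2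
    simpa using this
  have t3 : ∀ᶠ k : ℕ in atTop, ((9 / 2 * ((k : ℝ) + 1) * (13 / 20 : ℝ) ^ (k - 1)) ^ 2 <
      2 / 9 * (1 / 2) ^ k) := by
    have h1 := tendsto_pow_const_mul_const_pow_of_abs_lt_one 2 (r := (169 / 200 : ℝ))
      (by rw [abs_of_pos] <;> norm_num)
    have h2 := h1.eventually_lt_const (show (0 : ℝ) < 1 / 1000 by norm_num)
    filter_upwards [h2, eventually_ge_atTop 1] with k hk hk1
    obtain ⟨j, rfl⟩ : ∃ j, k = j + 1 := ⟨k - 1, by omega⟩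
    rw [Nat.add_sub_cancel]
    push_cast at hk ⊢
    have e1 : ((13 / 20 : ℝ) ^ j) ^ 2 * 2 ^ j = (169 / 200) ^ j := by
      rw [← pow_mul, mul_comm j 2, pow_mul, ← mul_pow]; norm_num
    have e2 : (0 : ℝ) < 2 ^ j := by positivity
    have e3 : (1 / 2 : ℝ) ^ (j + 1) * 2 ^ j = 1 / 2 := by
      rw [pow_succ, mul_right_comm, ← mul_pow]; norm_num
    refine lt_of_mul_lt_mul_right ?_ e2.le
    rw [mul_assoc (2 / 9 : ℝ), e3, mul_pow, mul_assoc, e1]
    have hj : (0 : ℝ) ≤ j := Nat.cast_nonneg j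
    have e4 : (169 / 200 : ℝ) ^ (j + 1) = 169 / 200 * (169 / 200) ^ j := by rw [pow_succ]; ring
    rw [e4] at hk
    have e5 : (0 : ℝ) < (169 / 200) ^ j := by positivity
    have e6 : (9 / 2 * ((j : ℝ) + 1 + 1)) ^ 2 ≤ 81 * (((j : ℝ) + 1) ^ 2) := by nlinarith
    calc (9 / 2 * ((j : ℝ) + 1 + 1)) ^ 2 * (169 / 200) ^ j
        ≤ 81 * (((j : ℝ) + 1) ^ 2) * (169 / 200) ^ j := by gcongr
      _ < 2 / 9 * (1 / 2) := by nlinarith
  have t4 : Tendsto (fun m : ℕ => 2 ^ m) atTop atTop :=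
    tendsto_pow_atTop_atTop_of_one_lt (by norm_num)
  obtain ⟨m, ⟨⟨hm1, hm2⟩, hm3⟩, hm4⟩ := (((t4.eventually (t0.eventually_le_const
    (show (0 : ℝ) < 9 / 100 by norm_num))).and (t4.eventually t3)).and
    (t4.eventually (t2.eventually_lt_const hε)) |>.and (t4.eventually (eventually_ge_atTop 4))).exists
  obtain ⟨K, hK⟩ : ∃ K, 2 ^ m = K + 1 := ⟨2 ^ m - 1, by omega⟩
  rw [hK] at hm1 hm2 hm3 hm4
  rw [Nat.add_sub_cancel] at hm2
  push_cast at hm2 hm3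
  have hm2' : (9 / 2 * (K + 2) * (13 / 20 : ℝ) ^ K) ^ 2 < 2 / 9 * (1 / 2) ^ (K + 1) := by
    rw [show (K : ℝ) + 2 = K + 1 + 1 by ring]; exact hm2
  obtain ⟨α, hα0, hint, hdeg, hnum, hsz⟩ := construct m K hK hm4 hm1 hm2'
  refine ⟨α, hα0, hint, by rw [hdeg]; omega, hnum, ?_⟩
  rw [hdeg]
  push_cast at hsz ⊢
  have hK0 : (0 : ℝ) < (K : ℝ) + 1 := by positivity
  have e1 : (4 * ((K : ℝ) + 1)) * (2 : ℝ) ^ ((4 : ℝ) / (4 * ((K : ℝ) + 1)) - 1) =
      2 * ((K : ℝ) + 1) * Real.exp (Real.log 2 / ((K : ℝ) + 1)) := by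
    rw [Real.rpow_sub (by norm_num), Real.rpow_one, Real.rpow_def_of_pos (by norm_num)]
    have : Real.log 2 * (4 / (4 * ((K : ℝ) + 1))) = Real.log 2 / ((K : ℝ) + 1) := by
      field_simp
    rw [this]
    ring
  have e2 : 2 * ((K : ℝ) + 1) + 2 * Real.log 2 ≤
      2 * ((K : ℝ) + 1) * Real.exp (Real.log 2 / ((K : ℝ) + 1)) := by
    have h1 := Real.add_one_le_exp (Real.log 2 / ((K : ℝ) + 1))
    have h2 : 2 * ((K : ℝ) + 1) + 2 * Real.log 2 =
        2 * ((K : ℝ) + 1) * (Real.log 2 / ((K : ℝ) + 1) + 1) := by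
      field_simp
      ring
    rw [h2]
    gcongr
  rw [e1]
  linarith

end Pool.Agent.Results.MP_bf7c2b_nt.FourReal
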